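import Pool.Agent.Helper8.S4.Def

/-!
# Positive braids on four strands: transitions of the quadratic forms

From the list `LMI` of inequalities we get that every block of letters `1`, `3` of type `T`
followed by the letter `2` maps the union of the unit balls of `H1`, `H3`, `H13` into the unit ball
of `H_T`; hence the semigroup generated by the three letters is bounded.
-/

open Complex

namespace Pool.Agent.Helper29.S4

open Pool.Agent.Helper8.S4

/-- standing assumptions -/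
structure Good (q : ℂ) (Q : ℝ) : Prop where
  Q0 : 0 < Q
  Q1 : Q < 1
  nq : normSq q = Q ^ 2
  e1 : 1 + q ≠ 0
  e3 : 1 + q + q ^ 2 ≠ 0

section
variable {q : ℂ} {Q : ℝ} {c : Wt}

lemma Good.n1 (hq : Good q Q) : normSq (1 + q) ≠ 0 := by
  rw [Ne, normSq_eq_zero]; exact hq.e1

lemma Good.n3 (hq : Good q Q) : normSq (1 + q + q ^ 2) ≠ 0 := by
  rw [Ne, normSq_eq_zero]; exact hq.e3

lemma Good.n1p (hq : Good q Q) : 0 < normSq (1 + q) := normSq_pos.mpr hq.e1

lemma Good.n3p (hq : Good q Q) : 0 < normSq (1 + q + q ^ 2) := normSq_pos.mpr hq.e3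

lemma Good.sq_le (hq : Good q Q) : Q ^ 2 ≤ 1 := by
  have := hq.Q0
  have := hq.Q1
  nlinarith

lemma nneg (hq : Good q Q) (z : ℂ) : normSq (-q * z) = Q ^ 2 * normSq z := by
  rw [normSq_mul, normSq_neg, hq.nq]

lemma normSq_sub_comm' (x y : ℂ) : normSq (x - y) = normSq (y - x) := by
  rw [← normSq_neg, neg_sub]

lemma hx_nonneg (hq : Good q Q) (w : St) : 0 ≤ hx q Q w := by
  unfold hx
  exact div_nonneg (normSq_nonneg _) (mul_nonneg hq.Q0.le (normSq_nonneg _))

/-- if `x̂ = z / (1+q)` -/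
lemma hx_of (hq : Good q Q) (w : St) (z : ℂ)
    (h : (1 + q) ^ 2 * w.m - q * (w.a + w.b) = (1 + q) * z) :
    hx q Q w = normSq z / Q := by
  have h1 := hq.n1
  have h2 := hq.Q0.ne'
  unfold hx
  rw [h, normSq_mul]
  field_simp

/-- if `x̂ = - q/(1+q)^2 z` -/
lemma hx_of' (hq : Good q Q) (w : St) (z : ℂ)
    (h : (1 + q) ^ 2 * w.m - q * (w.a + w.b) = -q * z) :
    hx q Q w = Q / normSq (1 + q) * normSq z := by
  have h1 := hq.n1
  have h2 := hq.Q0.ne'
  unfold hx
  rw [h, nneg hq]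
  field_simp

lemma hx_S2_le (hq : Good q Q) (w : St) : hx q Q (S2 q w) ≤ hx q Q w := by
  have h1 := hq.e1
  have e : hx q Q (S2 q w) = Q ^ 2 * hx q Q w := by
    unfold hx
    have : (1 + q) ^ 2 * (S2 q w).m - q * ((S2 q w).a + (S2 q w).b)
      = -q * ((1 + q) ^ 2 * w.m - q * (w.a + w.b)) := by
      simp only [S2]
      field_simp
      ring
    rw [this, nneg hq]
    ring
  rw [e]
  have := hx_nonneg hq w
  have := hq.sq_le
  nlinarith

lemma H13_S2_le (hq : Good q Q) (hc : c.Pos) (w : St) : H13 q Q c (S2 q w) ≤ H13 q Q c w := by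
  unfold H13
  have h1 : c.ap * hx q Q (S2 q w) ≤ c.ap * hx q Q w :=
    mul_le_mul_of_nonneg_left (hx_S2_le hq w) hc.ap.le
  have e : (S2 q w).a = w.a := rfl
  have e' : (S2 q w).b = w.b := rfl
  rw [e, e']
  linarith

lemma H1_S2_le (hq : Good q Q) (hc : c.Pos) (w : St) : H1 q Q c (S2 q w) ≤ H1 q Q c w := by
  unfold H1
  have h1 : c.one * hx q Q (S2 q w) ≤ c.one * hx q Q w :=
    mul_le_mul_of_nonneg_left (hx_S2_le hq w) hc.one.le
  have e : (S2 q w).a = w.a := rfl
  have e' : (S2 q w).b = w.b := rfl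
  rw [e, e']
  linarith

lemma S1_sub (w : St) : (S1 q w).a - (S1 q w).m = -q * (w.a - w.m) := by
  simp only [S1]; ring

lemma S3_sub (w : St) : (S3 q w).b - (S3 q w).m = -q * (w.b - w.m) := by
  simp only [S3]; ring

/-! ### Mirror -/

lemma S1_S3 (w : St) : S1 q (S3 q w) = S3 q (S1 q w) := rfl
lemma mir_S1 (w : St) : mir (S1 q w) = S3 q (mir w) := rfl
lemma mir_S3 (w : St) : mir (S3 q w) = S1 q (mir w) := rfl
lemma mir_mir (w : St) : mir (mir w) = w := rfl

lemma mir_S2 (w : St) : mir (S2 q w) = S2 q (mir w) := by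
  simp only [mir, S2, add_comm]

lemma hx_mir (w : St) : hx q Q (mir w) = hx q Q w := by
  unfold hx mir
  simp only [add_comm]

lemma H13_mir (w : St) : H13 q Q c (mir w) = H13 q Q c w := by
  unfold H13
  rw [hx_mir]
  simp only [mir]
  rw [add_comm w.b w.a, normSq_sub_comm' w.b w.a]

lemma K13_mir (w : St) : K13 c (mir w) = K13 c w := by
  unfold K13
  simp only [mir]
  rw [add_comm (normSq (w.b - w.m))]

lemma H3_mir (w : St) : H3 q Q c w = H1 q Q c (mir w) := rfl

lemma H1_mir (w : St) : H1 q Q c (mir w) = H3 q Q c w := rfl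

lemma H3_S2_le (hq : Good q Q) (hc : c.Pos) (w : St) : H3 q Q c (S2 q w) ≤ H3 q Q c w := by
  rw [H3_mir, H3_mir, mir_S2]
  exact H1_S2_le hq hc _

/-! ### From `K1` to `H1 ∘ S2` -/

lemma K1_ge (hq : Good q Q) (hl : LMI q Q c) (w : St) : H1 q Q c (S2 q w) ≤ K1 q c w := by
  have h1 := hq.e1
  have h3 := hq.e3
  have n3 := hq.n3
  have e := hx_of' hq (S2 q w) ((1 + q + q ^ 2) * (w.m - q / (1 + q + q ^ 2) * w.b)
    - q * (w.a - w.m)) (by
      simp only [S2]
      field_simp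
      ring)
  have t := hl.T1 (w.m - q / (1 + q + q ^ 2) * w.b) (w.a - w.m)
  unfold H1 K1
  rw [e]
  have e2 : (1 + q + q ^ 2) * (S2 q w).a - q * (S2 q w).b
    = (1 + q + q ^ 2) * ((w.m - q / (1 + q + q ^ 2) * w.b) + (w.a - w.m)) := by
    simp only [S2]; field_simp; ring
  have e3 : (S2 q w).b = w.b := rfl
  have e4 : (1 + q + q ^ 2) * w.m - q * w.b
    = (1 + q + q ^ 2) * (w.m - q / (1 + q + q ^ 2) * w.b) := by
    field_simp
  rw [e2, e3, e4, normSq_mul (1 + q + q ^ 2) (_ + _),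
    normSq_mul (1 + q + q ^ 2) (w.m - q / (1 + q + q ^ 2) * w.b)]
  generalize normSq ((w.m - q / (1 + q + q ^ 2) * w.b) + (w.a - w.m)) = A at *
  generalize normSq (w.m - q / (1 + q + q ^ 2) * w.b) = B at *
  have e5 : c.be * (normSq (1 + q + q ^ 2) * A) / normSq (1 + q + q ^ 2) = c.be * A := by
    field_simp
  have e6 : c.R1 * (normSq (1 + q + q ^ 2) * B) / normSq (1 + q + q ^ 2) = c.R1 * B := by
    field_simp
  have e7 : ∀ z : ℝ, c.one * (Q / normSq (1 + q) * z) = c.one * Q / normSq (1 + q) * z := by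
    intro z; ring
  rw [e5, e6, e7]
  linarith

/-! ### Coordinates -/

noncomputable def st1 (q : ℂ) (x u y : ℂ) : St :=
  ⟨(1 + q) * u + q * y, (x + q * u + q * (1 + q) * y) / (1 + q), (1 + q + q ^ 2) * y⟩

noncomputable def st3 (q : ℂ) (x u y : ℂ) : St :=
  ⟨(1 + q + q ^ 2) * y, (x + q * u + q * (1 + q) * y) / (1 + q), (1 + q) * u + q * y⟩

noncomputable def st13 (q : ℂ) (x α β : ℂ) : St :=
  ⟨(1 + q) * α, (x + q * α + q * β) / (1 + q), (1 + q) * β⟩

lemma St_ext {v w : St} (h1 : v.a = w.a) (h2 : v.m = w.m) (h3 : v.b = w.b) : v = w := by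
  cases v; cases w; simp only at h1 h2 h3; subst h1 h2 h3; rfl

lemma ex1 (hq : Good q Q) (w : St) : ∃ x u y, w = st1 q x u y := by
  have h1 := hq.e1
  have h3 := hq.e3
  refine ⟨(1 + q) * (w.m - q / (1 + q) ^ 2 * (w.a + w.b)),
    (w.a - q / (1 + q + q ^ 2) * w.b) / (1 + q), w.b / (1 + q + q ^ 2), St_ext ?_ ?_ ?_⟩
  · simp only [st1]; field_simp; ring
  · simp only [st1]; field_simp; ring
  · simp only [st1]; field_simp

lemma ex3 (hq : Good q Q) (w : St) : ∃ x u y, w = st3 q x u y := by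
  obtain ⟨x, u, y, h⟩ := ex1 hq (mir w)
  refine ⟨x, u, y, ?_⟩
  have : w = mir (mir w) := rfl
  rw [this, h]
  rfl

lemma ex13 (hq : Good q Q) (w : St) : ∃ x a b, w = st13 q x a b := by
  have h1 := hq.e1
  refine ⟨(1 + q) * (w.m - q / (1 + q) ^ 2 * (w.a + w.b)), w.a / (1 + q), w.b / (1 + q),
    St_ext ?_ ?_ ?_⟩
  · simp only [st13]; field_simp
  · simp only [st13]; field_simp; ring
  · simp only [st13]; field_simp

lemma H1_st1 (hq : Good q Q) (x u y : ℂ) : H1 q Q c (st1 q x u y) = F3 q Q c x u y := by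
  have h1 := hq.e1
  have h3 := hq.e3
  have n3 := hq.n3
  have e := hx_of hq (st1 q x u y) x (by simp only [st1]; field_simp; ring)
  unfold H1 F3
  rw [e]
  have e2 : (1 + q + q ^ 2) * (st1 q x u y).a - q * (st1 q x u y).b
    = (1 + q + q ^ 2) * ((1 + q) * u) := by
    simp only [st1]; ring
  have e3 : (st1 q x u y).b = (1 + q + q ^ 2) * y := rfl
  rw [e2, e3, normSq_mul, normSq_mul, normSq_mul]
  field_simp

lemma H3_st3 (hq : Good q Q) (x u y : ℂ) : H3 q Q c (st3 q x u y) = F3 q Q c x u y := by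
  rw [H3_mir]
  exact H1_st1 hq x u y

lemma H13_st13 (hq : Good q Q) (x a b : ℂ) : H13 q Q c (st13 q x a b) = F13 q Q c x a b := by
  have h1 := hq.e1
  have e := hx_of hq (st13 q x a b) x (by simp only [st13]; field_simp; ring)
  unfold H13 F13
  rw [e]
  have e2 : (st13 q x a b).a + (st13 q x a b).b = (1 + q) * (a + b) := by
    simp only [st13]; ring
  have e3 : (st13 q x a b).a - (st13 q x a b).b = (1 + q) * (a - b) := by
    simp only [st13]; ring
  rw [e2, e3, normSq_mul, normSq_mul]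
  ring

lemma F3_split (x u y : ℂ) :
    F3 q Q c x u y = F3 q Q c x u 0 + c.ga * normSq (1 + q) ^ 2 * normSq y := by
  unfold F3
  rw [map_zero]
  ring

/-! ### Two letters `1` -/

lemma K1_S1S1 (hq : Good q Q) (w : St) : K1 q c (S1 q (S1 q w)) =
    c.lam * Q ^ 4 * normSq (w.a - w.m)
    + c.R1 * normSq ((1 + q + q ^ 2) * w.m - q * w.b) / normSq (1 + q + q ^ 2)
    + c.ga * normSq (1 + q) ^ 2 * normSq w.b / normSq (1 + q + q ^ 2) := by
  unfold K1
  rw [S1_sub, S1_sub, nneg hq, nneg hq]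
  have e1 : (S1 q (S1 q w)).m = w.m := rfl
  have e2 : (S1 q (S1 q w)).b = w.b := rfl
  rw [e1, e2]
  ring

lemma K1_S1_le (hq : Good q Q) (hc : c.Pos) (w : St) : K1 q c (S1 q w) ≤ K1 q c w := by
  unfold K1
  rw [S1_sub, nneg hq]
  have e1 : (S1 q w).m = w.m := rfl
  have e2 : (S1 q w).b = w.b := rfl
  rw [e1, e2]
  have h2 : Q ^ 2 * normSq (w.a - w.m) ≤ normSq (w.a - w.m) := by
    have := normSq_nonneg (w.a - w.m)
    have := hq.sq_le
    nlinarith
  have h3 := mul_le_mul_of_nonneg_left h2 hc.lam.le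
  linarith

lemma T2_1 (hq : Good q Q) (hl : LMI q Q c) (w : St) : K1 q c (S1 q (S1 q w)) ≤ H1 q Q c w := by
  obtain ⟨x, u, y, rfl⟩ := ex1 hq w
  have h1 := hq.e1
  have h3 := hq.e3
  have n1 := hq.n1
  have n3 := hq.n3
  rw [K1_S1S1 hq, H1_st1 hq, F3_split]
  have e1 : (st1 q x u y).a - (st1 q x u y).m = (-x + (1 + q + q ^ 2) * u) / (1 + q) := by
    simp only [st1]; field_simp; ring
  have e2 : (1 + q + q ^ 2) * (st1 q x u y).m - q * (st1 q x u y).b
    = (1 + q + q ^ 2) * ((x + q * u) / (1 + q)) := by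
    simp only [st1]; field_simp; ring
  have e3 : (st1 q x u y).b = (1 + q + q ^ 2) * y := rfl
  rw [e1, e2, e3, normSq_mul, normSq_div, normSq_div, normSq_mul]
  have t := hl.T2v1 x u
  refine le_trans (le_of_eq ?_) (add_le_add_left t (c.ga * normSq (1 + q) ^ 2 * normSq y))
  field_simp

lemma T2_3 (hq : Good q Q) (hl : LMI q Q c) (w : St) : K1 q c (S1 q (S1 q w)) ≤ H3 q Q c w := by
  obtain ⟨x, u, y, rfl⟩ := ex3 hq w
  have h1 := hq.e1
  have h3 := hq.e3
  have n1 := hq.n1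
  have n3 := hq.n3
  rw [K1_S1S1 hq, H3_st3 hq]
  have e1 : (st3 q x u y).a - (st3 q x u y).m
    = (-x - q * u + (1 + q) * (1 + q ^ 2) * y) / (1 + q) := by
    simp only [st3]; field_simp; ring
  have e2 : (1 + q + q ^ 2) * (st3 q x u y).m - q * (st3 q x u y).b
    = ((1 + q + q ^ 2) * x - q ^ 2 * u + q * (1 + q) * (1 + q ^ 2) * y) / (1 + q) := by
    simp only [st3]; field_simp; ring
  have e3 : (st3 q x u y).b = (1 + q) * u + q * y := rfl
  rw [e1, e2, e3, normSq_div, normSq_div]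
  refine le_trans (le_of_eq ?_) (hl.T2v3 x u y)
  field_simp

lemma T2_13 (hq : Good q Q) (hl : LMI q Q c) (w : St) : K1 q c (S1 q (S1 q w)) ≤ H13 q Q c w := by
  obtain ⟨x, a, b, rfl⟩ := ex13 hq w
  have h1 := hq.e1
  have h3 := hq.e3
  have n1 := hq.n1
  have n3 := hq.n3
  rw [K1_S1S1 hq, H13_st13 hq]
  have e1 : (st13 q x a b).a - (st13 q x a b).m
    = (-x + (1 + q + q ^ 2) * a - q * b) / (1 + q) := by
    simp only [st13]; field_simp; ring
  have e2 : (1 + q + q ^ 2) * (st13 q x a b).m - q * (st13 q x a b).b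
    = ((1 + q + q ^ 2) * x + q * (1 + q + q ^ 2) * a - q ^ 2 * b) / (1 + q) := by
    simp only [st13]; field_simp; ring
  have e3 : (st13 q x a b).b = (1 + q) * b := rfl
  rw [e1, e2, e3, normSq_div, normSq_div, normSq_mul (1 + q) b]
  refine le_trans (le_of_eq ?_) (hl.T2v13 x a b)
  field_simp

/-! ### One letter `1` -/

/-- value of `H1 ∘ S2 ∘ S1` -/
lemma H1_S2S1 (hq : Good q Q) (w : St) : H1 q Q c (S2 q (S1 q w)) =
    c.one * (Q / normSq (1 + q) *
      normSq ((1 + q + q ^ 2) * w.m - q * w.b + q ^ 2 * (w.a - w.m)))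
    + c.be * normSq ((1 + q + q ^ 2) * w.m - q * w.b - q * (1 + q + q ^ 2) * (w.a - w.m))
      / normSq (1 + q + q ^ 2)
    + c.ga * normSq (1 + q) ^ 2 * normSq w.b / normSq (1 + q + q ^ 2) := by
  have h1 := hq.e1
  have h3 := hq.e3
  have e := hx_of' hq (S2 q (S1 q w)) ((1 + q + q ^ 2) * w.m - q * w.b
    + q ^ 2 * (w.a - w.m)) (by
      simp only [S2, S1]
      field_simp
      ring)
  unfold H1
  rw [e]
  have e2 : (1 + q + q ^ 2) * (S2 q (S1 q w)).a - q * (S2 q (S1 q w)).b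
    = (1 + q + q ^ 2) * w.m - q * w.b - q * (1 + q + q ^ 2) * (w.a - w.m) := by
    simp only [S2, S1]; ring
  have e3 : (S2 q (S1 q w)).b = w.b := rfl
  rw [e2, e3]

lemma T3_1 (hq : Good q Q) (hl : LMI q Q c) (w : St) : H1 q Q c (S2 q (S1 q w)) ≤ H1 q Q c w := by
  obtain ⟨x, u, y, rfl⟩ := ex1 hq w
  have h1 := hq.e1
  have h3 := hq.e3
  have n1 := hq.n1
  have n3 := hq.n3
  rw [H1_S2S1 hq, H1_st1 hq, F3_split]
  have e1 : (1 + q + q ^ 2) * (st1 q x u y).m - q * (st1 q x u y).b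
      + q ^ 2 * ((st1 q x u y).a - (st1 q x u y).m) = x + q * (1 + q + q ^ 2) * u := by
    simp only [st1]; field_simp; ring
  have e2 : (1 + q + q ^ 2) * (st1 q x u y).m - q * (st1 q x u y).b
      - q * (1 + q + q ^ 2) * ((st1 q x u y).a - (st1 q x u y).m)
      = (1 + q + q ^ 2) * (x - q ^ 2 * u) := by
    simp only [st1]; field_simp; ring
  have e3 : (st1 q x u y).b = (1 + q + q ^ 2) * y := rfl
  rw [e1, e2, e3, normSq_mul (1 + q + q ^ 2) y, normSq_mul (1 + q + q ^ 2) (x - _)]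
  have t := hl.T3v1 x u
  refine le_trans (le_of_eq ?_) (add_le_add_left t (c.ga * normSq (1 + q) ^ 2 * normSq y))
  field_simp

lemma T3_3 (hq : Good q Q) (hl : LMI q Q c) (w : St) : H1 q Q c (S2 q (S1 q w)) ≤ H3 q Q c w := by
  obtain ⟨x, u, y, rfl⟩ := ex3 hq w
  have h1 := hq.e1
  have h3 := hq.e3
  rw [H1_S2S1 hq, H3_st3 hq]
  have e1 : (1 + q + q ^ 2) * (st3 q x u y).m - q * (st3 q x u y).b
      + q ^ 2 * ((st3 q x u y).a - (st3 q x u y).m)
      = x - q ^ 2 * u + q * (1 + q) * (1 + q ^ 2) * y := by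
    simp only [st3]; field_simp; ring
  have e2 : (1 + q + q ^ 2) * (st3 q x u y).m - q * (st3 q x u y).b
      - q * (1 + q + q ^ 2) * ((st3 q x u y).a - (st3 q x u y).m)
      = (1 + q + q ^ 2) * x + q ^ 3 * u - q ^ 2 * (q * (1 + q + q ^ 2) + 1) * y := by
    simp only [st3]; field_simp; ring
  have e3 : (st3 q x u y).b = (1 + q) * u + q * y := rfl
  rw [e1, e2, e3]
  refine le_trans (le_of_eq ?_) (hl.T3v3 x u y)
  ring

lemma T3_13 (hq : Good q Q) (hl : LMI q Q c) (w : St) :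
    H1 q Q c (S2 q (S1 q w)) ≤ H13 q Q c w := by
  obtain ⟨x, a, b, rfl⟩ := ex13 hq w
  have h1 := hq.e1
  have h3 := hq.e3
  rw [H1_S2S1 hq, H13_st13 hq]
  have e1 : (1 + q + q ^ 2) * (st13 q x a b).m - q * (st13 q x a b).b
      + q ^ 2 * ((st13 q x a b).a - (st13 q x a b).m)
      = x + q * (1 + q + q ^ 2) * a - q ^ 2 * b := by
    simp only [st13]; field_simp; ring
  have e2 : (1 + q + q ^ 2) * (st13 q x a b).m - q * (st13 q x a b).b
      - q * (1 + q + q ^ 2) * ((st13 q x a b).a - (st13 q x a b).m)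
      = (1 + q + q ^ 2) * x - q ^ 2 * (1 + q + q ^ 2) * a + q ^ 3 * b := by
    simp only [st13]; field_simp; ring
  have e3 : (st13 q x a b).b = (1 + q) * b := rfl
  rw [e1, e2, e3, normSq_mul (1 + q) b]
  refine le_trans (le_of_eq ?_) (hl.T3v13 x a b)
  ring

/-! ### Blocks with both letters `1` and `3` -/

/-- value of `H13 ∘ S2` -/
lemma H13_S2 (hq : Good q Q) (w : St) : H13 q Q c (S2 q w) =
    c.ap * (Q / normSq (1 + q) * normSq ((1 + q ^ 2) * w.m - q * (w.a + w.b - 2 * w.m)))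
    + c.bp / 4 * normSq (w.a + w.b) + c.gp / 4 * normSq (w.a - w.b) := by
  have h1 := hq.e1
  have e := hx_of' hq (S2 q w) ((1 + q ^ 2) * w.m - q * (w.a + w.b - 2 * w.m)) (by
      simp only [S2]
      field_simp
      ring)
  unfold H13
  rw [e]
  have e2 : (S2 q w).a = w.a := rfl
  have e3 : (S2 q w).b = w.b := rfl
  rw [e2, e3]

lemma K13_ge (hq : Good q Q) (hl : LMI q Q c) (w : St) : H13 q Q c (S2 q w) ≤ K13 c w := by
  rw [H13_S2 hq]
  have t := hl.T4K w.m ((w.a + w.b - 2 * w.m) / 2)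
  have g := hl.T4Ka
  unfold K13
  have par : normSq (w.a - w.m) + normSq (w.b - w.m)
      = 2 * normSq ((w.a + w.b - 2 * w.m) / 2) + normSq (w.a - w.b) / 2 := by
    simp only [normSq_apply, sub_re, sub_im, add_re, add_im, mul_re, mul_im, div_ofNat_re,
      div_ofNat_im, re_ofNat, im_ofNat]
    ring
  rw [par]
  have e1 : (1 + q ^ 2) * w.m - 2 * q * ((w.a + w.b - 2 * w.m) / 2)
    = (1 + q ^ 2) * w.m - q * (w.a + w.b - 2 * w.m) := by ring
  have e2 : normSq (w.m + (w.a + w.b - 2 * w.m) / 2) = normSq (w.a + w.b) / 4 := by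
    have : w.m + (w.a + w.b - 2 * w.m) / 2 = (w.a + w.b) / 2 := by ring
    rw [this, normSq_div]
    norm_num
  rw [e1, e2] at t
  have n := normSq_nonneg (w.a - w.b)
  have e7 : ∀ z : ℝ, c.ap * (Q / normSq (1 + q) * z) = c.ap * Q / normSq (1 + q) * z := by
    intro z; ring
  rw [e7]
  nlinarith

lemma K13_S1_le (hq : Good q Q) (hc : c.Pos) (w : St) : K13 c (S1 q w) ≤ K13 c w := by
  unfold K13
  rw [S1_sub, nneg hq]
  have e1 : (S1 q w).m = w.m := rfl
  have e2 : (S1 q w).b = w.b := rfl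
  rw [e1, e2]
  have h2 : Q ^ 2 * normSq (w.a - w.m) ≤ normSq (w.a - w.m) := by
    have := normSq_nonneg (w.a - w.m)
    have := hq.sq_le
    nlinarith
  have h3 := mul_le_mul_of_nonneg_left h2 hc.l2.le
  linarith

lemma K13_S3_le (hq : Good q Q) (hc : c.Pos) (w : St) : K13 c (S3 q w) ≤ K13 c w := by
  rw [← K13_mir (S3 q w), mir_S3, ← K13_mir w]
  exact K13_S1_le hq hc _

lemma K13_113 (hq : Good q Q) (w : St) : K13 c (S1 q (S1 q (S3 q w))) =
    c.l2 * Q ^ 4 * normSq (w.a - w.m) + c.l2 * Q ^ 2 * normSq (w.b - w.m)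
      + c.R2 * normSq w.m := by
  unfold K13
  have e0 : (S1 q (S1 q (S3 q w))).b = (S3 q w).b := rfl
  have e1 : (S1 q (S1 q (S3 q w))).m = (S3 q w).m := rfl
  have e2 : (S1 q (S3 q w)).a - (S1 q (S3 q w)).m = -q * (w.a - w.m) := by
    rw [S1_sub]; rfl
  rw [S1_sub, e2, e0, e1, S3_sub, nneg hq, nneg hq, nneg hq]
  have e3 : (S3 q w).m = w.m := rfl
  rw [e3]
  ring

lemma K13_133 (hq : Good q Q) (w : St) : K13 c (S1 q (S3 q (S3 q w))) =
    c.l2 * Q ^ 2 * normSq (w.a - w.m) + c.l2 * Q ^ 4 * normSq (w.b - w.m)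
      + c.R2 * normSq w.m := by
  rw [← K13_mir]
  have : mir (S1 q (S3 q (S3 q w))) = S1 q (S1 q (S3 q (mir w))) := by
    rw [mir_S1, mir_S3, mir_S3]; rfl
  rw [this, K13_113 hq]
  simp only [mir]
  ring

lemma T4b_13 (hq : Good q Q) (hl : LMI q Q c) (w : St) :
    K13 c (S1 q (S1 q (S3 q w))) ≤ H13 q Q c w := by
  obtain ⟨x, a, b, rfl⟩ := ex13 hq w
  have h1 := hq.e1
  rw [K13_113 hq, H13_st13 hq]
  have e1 : (st13 q x a b).a - (st13 q x a b).m
    = (-x + (1 + q + q ^ 2) * a - q * b) / (1 + q) := by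
    simp only [st13]; field_simp; ring
  have e2 : (st13 q x a b).b - (st13 q x a b).m
    = (-x - q * a + (1 + q + q ^ 2) * b) / (1 + q) := by
    simp only [st13]; field_simp; ring
  have e3 : (st13 q x a b).m = (x + q * a + q * b) / (1 + q) := rfl
  rw [e1, e2, e3, normSq_div, normSq_div, normSq_div]
  refine le_trans (le_of_eq ?_) (hl.T4b13 x a b)
  ring

lemma T4c_13 (hq : Good q Q) (hl : LMI q Q c) (w : St) :
    K13 c (S1 q (S3 q (S3 q w))) ≤ H13 q Q c w := by
  rw [← K13_mir]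
  have : mir (S1 q (S3 q (S3 q w))) = S1 q (S1 q (S3 q (mir w))) := by
    rw [mir_S1, mir_S3, mir_S3]; rfl
  rw [this, ← H13_mir w]
  exact T4b_13 hq hl _

lemma T4b_1 (hq : Good q Q) (hl : LMI q Q c) (w : St) :
    K13 c (S1 q (S1 q (S3 q w))) ≤ H1 q Q c w := by
  obtain ⟨x, u, y, rfl⟩ := ex1 hq w
  have h1 := hq.e1
  rw [K13_113 hq, H1_st1 hq]
  have e1 : (st1 q x u y).a - (st1 q x u y).m
    = (-x + (1 + q + q ^ 2) * u) / (1 + q) := by
    simp only [st1]; field_simp; ring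
  have e2 : (st1 q x u y).b - (st1 q x u y).m
    = (-x - q * u + (1 + q) * (1 + q ^ 2) * y) / (1 + q) := by
    simp only [st1]; field_simp; ring
  have e3 : (st1 q x u y).m = (x + q * u + q * (1 + q) * y) / (1 + q) := rfl
  rw [e1, e2, e3, normSq_div, normSq_div, normSq_div]
  refine le_trans (le_of_eq ?_) (hl.T4b1 x u y)
  ring

lemma T4c_1 (hq : Good q Q) (hl : LMI q Q c) (w : St) :
    K13 c (S1 q (S3 q (S3 q w))) ≤ H1 q Q c w := by
  obtain ⟨x, u, y, rfl⟩ := ex1 hq w
  have h1 := hq.e1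
  rw [K13_133 hq, H1_st1 hq]
  have e1 : (st1 q x u y).a - (st1 q x u y).m
    = (-x + (1 + q + q ^ 2) * u) / (1 + q) := by
    simp only [st1]; field_simp; ring
  have e2 : (st1 q x u y).b - (st1 q x u y).m
    = (-x - q * u + (1 + q) * (1 + q ^ 2) * y) / (1 + q) := by
    simp only [st1]; field_simp; ring
  have e3 : (st1 q x u y).m = (x + q * u + q * (1 + q) * y) / (1 + q) := rfl
  rw [e1, e2, e3, normSq_div, normSq_div, normSq_div]
  refine le_trans (le_of_eq ?_) (hl.T4c1 x u y)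
  ring

lemma T4b_3 (hq : Good q Q) (hl : LMI q Q c) (w : St) :
    K13 c (S1 q (S1 q (S3 q w))) ≤ H3 q Q c w := by
  rw [← K13_mir, H3_mir]
  have : mir (S1 q (S1 q (S3 q w))) = S1 q (S3 q (S3 q (mir w))) := by
    rw [mir_S1, mir_S1, mir_S3]; rfl
  rw [this]
  exact T4c_1 hq hl _

lemma T4c_3 (hq : Good q Q) (hl : LMI q Q c) (w : St) :
    K13 c (S1 q (S3 q (S3 q w))) ≤ H3 q Q c w := by
  rw [← K13_mir, H3_mir]
  have : mir (S1 q (S3 q (S3 q w))) = S1 q (S1 q (S3 q (mir w))) := by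
    rw [mir_S1, mir_S3, mir_S3]; rfl
  rw [this]
  exact T4b_1 hq hl _

/-- value of `H13 ∘ S2 ∘ S1 ∘ S3` -/
lemma H13_213 (hq : Good q Q) (w : St) : H13 q Q c (S2 q (S1 q (S3 q w))) =
    c.ap * (Q / normSq (1 + q) * normSq ((1 + q ^ 2) * w.m + q ^ 2 * (w.a + w.b - 2 * w.m)))
    + c.bp / 4 * normSq (-q * (w.a + w.b) + 2 * (1 + q) * w.m)
    + c.gp / 4 * Q ^ 2 * normSq (w.a - w.b) := by
  rw [H13_S2 hq]
  have e1 : (S1 q (S3 q w)).m = w.m := rfl
  have e2 : (S1 q (S3 q w)).a + (S1 q (S3 q w)).b = -q * (w.a + w.b) + 2 * (1 + q) * w.m := by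
    simp only [S1, S3]; ring
  have e3 : (S1 q (S3 q w)).a - (S1 q (S3 q w)).b = -q * (w.a - w.b) := by
    simp only [S1, S3]; ring
  rw [e1, e2, e3, nneg hq]
  have e4 : (1 + q ^ 2) * w.m - q * (-q * (w.a + w.b) + 2 * (1 + q) * w.m - 2 * w.m)
    = (1 + q ^ 2) * w.m + q ^ 2 * (w.a + w.b - 2 * w.m) := by ring
  rw [e4]
  ring

lemma T5_13 (hq : Good q Q) (hc : c.Pos) (hl : LMI q Q c) (w : St) :
    H13 q Q c (S2 q (S1 q (S3 q w))) ≤ H13 q Q c w := by
  obtain ⟨x, a, b, rfl⟩ := ex13 hq w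
  have h1 := hq.e1
  rw [H13_213 hq, H13_st13 hq]
  have e1 : (1 + q ^ 2) * (st13 q x a b).m
      + q ^ 2 * ((st13 q x a b).a + (st13 q x a b).b - 2 * (st13 q x a b).m)
      = (1 - q) * x + q * (1 + q ^ 2) * (a + b) := by
    simp only [st13]; field_simp; ring
  have e2 : -q * ((st13 q x a b).a + (st13 q x a b).b) + 2 * (1 + q) * (st13 q x a b).m
      = 2 * x + q * (1 - q) * (a + b) := by
    simp only [st13]; field_simp; ring
  have e3 : (st13 q x a b).a - (st13 q x a b).b = (1 + q) * (a - b) := by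
    simp only [st13]; ring
  rw [e1, e2, e3, normSq_mul (1 + q) (a - b)]
  have t := hl.T5v13 x (a + b)
  have h4 : c.gp / 4 * Q ^ 2 * (normSq (1 + q) * normSq (a - b))
      ≤ c.gp / 4 * normSq (1 + q) * normSq (a - b) := by
    have hg := hc.gp
    have n1 := normSq_nonneg (1 + q)
    have n2 := normSq_nonneg (a - b)
    have n3 : 0 ≤ c.gp / 4 * (normSq (1 + q) * normSq (a - b)) := by positivity
    have := hq.sq_le
    nlinarith
  have e7 : ∀ z : ℝ, c.ap * (Q / normSq (1 + q) * z) = c.ap * Q / normSq (1 + q) * z := by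
    intro z; ring
  rw [e7]
  unfold F13
  linarith

lemma T5_1 (hq : Good q Q) (hl : LMI q Q c) (w : St) :
    H13 q Q c (S2 q (S1 q (S3 q w))) ≤ H1 q Q c w := by
  obtain ⟨x, u, y, rfl⟩ := ex1 hq w
  have h1 := hq.e1
  rw [H13_213 hq, H1_st1 hq]
  have e1 : (1 + q ^ 2) * (st1 q x u y).m
      + q ^ 2 * ((st1 q x u y).a + (st1 q x u y).b - 2 * (st1 q x u y).m)
      = (1 - q) * x + q * (1 + q ^ 2) * u + q * (1 + q) * (1 + q ^ 2) * y := by
    simp only [st1]; field_simp; ring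
  have e2 : -q * ((st1 q x u y).a + (st1 q x u y).b) + 2 * (1 + q) * (st1 q x u y).m
      = 2 * x + q * (1 - q) * u + q * (1 - q ^ 2) * y := by
    simp only [st1]; field_simp; ring
  have e3 : (st1 q x u y).a - (st1 q x u y).b = (1 + q) * u - (1 + q ^ 2) * y := by
    simp only [st1]; ring
  rw [e1, e2, e3]
  refine le_trans (le_of_eq ?_) (hl.T5v1 x u y)
  ring

lemma T5_3 (hq : Good q Q) (hl : LMI q Q c) (w : St) :
    H13 q Q c (S2 q (S1 q (S3 q w))) ≤ H3 q Q c w := by
  rw [← H13_mir, H3_mir, mir_S2, mir_S1, mir_S3]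
  exact T5_1 hq hl _

/-! ### The invariant set -/

/-- union of the three unit balls -/
def Ball (q : ℂ) (Q : ℝ) (c : Wt) (w : St) : Prop :=
  H1 q Q c w ≤ 1 ∨ H3 q Q c w ≤ 1 ∨ H13 q Q c w ≤ 1

lemma Ball.mir {w : St} (h : Ball q Q c w) : Ball q Q c (mir w) := by
  rcases h with h | h | h
  · right; left
    rw [H3_mir, mir_mir]; exact h
  · left
    rw [H1_mir]; exact h
  · right; right
    rw [H13_mir]; exact h

lemma Ball.S2 (hq : Good q Q) (hc : c.Pos) {w : St} (h : Ball q Q c w) : Ball q Q c (S2 q w) := by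
  rcases h with h | h | h
  · exact Or.inl ((H1_S2_le hq hc w).trans h)
  · exact Or.inr (Or.inl ((H3_S2_le hq hc w).trans h))
  · exact Or.inr (Or.inr ((H13_S2_le hq hc w).trans h))

lemma K1_iter_le (hq : Good q Q) (hc : c.Pos) (i : ℕ) (w : St) :
    K1 q c ((S1 q)^[i] w) ≤ K1 q c w := by
  induction i with
  | zero => exact le_rfl
  | succ i ih =>
    rw [Function.iterate_succ_apply']
    exact (K1_S1_le hq hc _).trans ih

/-- a block of letters `1` followed by `2` -/
lemma block1 (hq : Good q Q) (hc : c.Pos) (hl : LMI q Q c) (i : ℕ) {w : St} (h : Ball q Q c w) :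
    H1 q Q c (S2 q ((S1 q)^[i + 1] w)) ≤ 1 := by
  rcases i with _ | i
  · rw [Function.iterate_succ_apply', Function.iterate_zero_apply]
    rcases h with h | h | h
    · exact (T3_1 hq hl w).trans h
    · exact (T3_3 hq hl w).trans h
    · exact (T3_13 hq hl w).trans h
  · refine (K1_ge hq hl _).trans ?_
    have e : (S1 q)^[i + 1 + 1] w = (S1 q)^[i] (S1 q (S1 q w)) := by
      rw [Function.iterate_succ_apply, Function.iterate_succ_apply]
    rw [e]
    refine (K1_iter_le hq hc i _).trans ?_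
    rcases h with h | h | h
    · exact (T2_1 hq hl w).trans h
    · exact (T2_3 hq hl w).trans h
    · exact (T2_13 hq hl w).trans h

lemma mir_iter (i : ℕ) (w : St) : mir ((S1 q)^[i] w) = (S3 q)^[i] (mir w) := by
  induction i with
  | zero => rfl
  | succ i ih => rw [Function.iterate_succ_apply', Function.iterate_succ_apply', mir_S1, ih]

lemma block3 (hq : Good q Q) (hc : c.Pos) (hl : LMI q Q c) (i : ℕ) {w : St} (h : Ball q Q c w) :
    H3 q Q c (S2 q ((S3 q)^[i + 1] w)) ≤ 1 := by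
  have := block1 hq hc hl i h.mir
  rw [← mir_mir w, ← mir_iter, ← mir_S2, H3_mir, mir_mir]
  exact this

lemma comm13 (i : ℕ) (w : St) : S3 q ((S1 q)^[i] w) = (S1 q)^[i] (S3 q w) := by
  induction i with
  | zero => rfl
  | succ i ih => rw [Function.iterate_succ_apply', Function.iterate_succ_apply', ← ih, S1_S3]

lemma comm31 (i : ℕ) (w : St) : S1 q ((S3 q)^[i] w) = (S3 q)^[i] (S1 q w) := by
  induction i with
  | zero => rfl
  | succ i ih => rw [Function.iterate_succ_apply', Function.iterate_succ_apply', ← ih, S1_S3]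

lemma K13_iter1_le (hq : Good q Q) (hc : c.Pos) (i : ℕ) (w : St) :
    K13 c ((S1 q)^[i] w) ≤ K13 c w := by
  induction i with
  | zero => exact le_rfl
  | succ i ih =>
    rw [Function.iterate_succ_apply']
    exact (K13_S1_le hq hc _).trans ih

lemma K13_iter3_le (hq : Good q Q) (hc : c.Pos) (i : ℕ) (w : St) :
    K13 c ((S3 q)^[i] w) ≤ K13 c w := by
  induction i with
  | zero => exact le_rfl
  | succ i ih =>
    rw [Function.iterate_succ_apply']
    exact (K13_S3_le hq hc _).trans ih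

/-- a block with both letters `1` and `3` followed by `2` -/
lemma block13 (hq : Good q Q) (hc : c.Pos) (hl : LMI q Q c) (i j : ℕ) {w : St}
    (h : Ball q Q c w) :
    H13 q Q c (S2 q ((S1 q)^[i + 1] ((S3 q)^[j + 1] w))) ≤ 1 := by
  rcases i with _ | i
  · rcases j with _ | j
    · rw [Function.iterate_succ_apply', Function.iterate_succ_apply', Function.iterate_zero_apply,
        Function.iterate_zero_apply]
      rcases h with h | h | h
      · exact (T5_1 hq hl w).trans h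
      · exact (T5_3 hq hl w).trans h
      · exact (T5_13 hq hc hl w).trans h
    · refine (K13_ge hq hl _).trans ?_
      have e : (S1 q)^[0 + 1] ((S3 q)^[j + 1 + 1] w) = (S3 q)^[j] (S1 q (S3 q (S3 q w))) := by
        rw [Function.iterate_succ_apply, Function.iterate_succ_apply,
          Function.iterate_zero_apply, Function.iterate_succ_apply, comm31]
      rw [e]
      refine (K13_iter3_le hq hc j _).trans ?_
      rcases h with h | h | h
      · exact (T4c_1 hq hl w).trans h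
      · exact (T4c_3 hq hl w).trans h
      · exact (T4c_13 hq hl w).trans h
  · refine (K13_ge hq hl _).trans ?_
    have e : (S1 q)^[i + 1 + 1] ((S3 q)^[j + 1] w)
        = (S1 q)^[i] ((S3 q)^[j] (S1 q (S1 q (S3 q w)))) := by
      rw [Function.iterate_succ_apply, Function.iterate_succ_apply, Function.iterate_succ_apply,
        comm31, comm31]
    rw [e]
    refine (K13_iter1_le hq hc i _).trans ((K13_iter3_le hq hc j _).trans ?_)
    rcases h with h | h | h
    · exact (T4b_1 hq hl w).trans h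
    · exact (T4b_3 hq hl w).trans h
    · exact (T4b_13 hq hl w).trans h

/-- an invariant set -/
def Reach (q : ℂ) (Q : ℝ) (c : Wt) (w : St) : Prop :=
  ∃ (i j : ℕ) (v : St), Ball q Q c v ∧ w = (S1 q)^[i] ((S3 q)^[j] v)

lemma Reach.step (hq : Good q Q) (hc : c.Pos) (hl : LMI q Q c) {w : St} (h : Reach q Q c w)
    (i : Fin 3) : Reach q Q c (step q i w) := by
  obtain ⟨a, b, v, hv, rfl⟩ := h
  unfold Helper8.S4.step
  split_ifs
  · exact ⟨a + 1, b, v, hv, by rw [Function.iterate_succ_apply']⟩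
  · refine ⟨0, 0, _, ?_, rfl⟩
    rcases a with _ | a
    · rcases b with _ | b
      · exact hv.S2 hq hc
      · exact Or.inr (Or.inl (block3 hq hc hl b hv))
    · rcases b with _ | b
      · exact Or.inl (block1 hq hc hl a hv)
      · exact Or.inr (Or.inr (block13 hq hc hl a b hv))
  · refine ⟨a, b + 1, v, hv, ?_⟩
    rw [comm13, Function.iterate_succ_apply']

lemma Reach.act (hq : Good q Q) (hc : c.Pos) (hl : LMI q Q c) (l : List (Fin 3)) {w : St}
    (h : Reach q Q c w) : Reach q Q c (act q l w) := by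
  induction l with
  | nil => exact h
  | cons i l ih => exact Reach.step hq hc hl ih i

/-! ### Boundedness -/

lemma normSq_add_le (x y : ℂ) : normSq (x + y) ≤ 2 * normSq x + 2 * normSq y := by
  have h : 0 ≤ normSq (x - y) := normSq_nonneg _
  simp only [normSq_apply, add_re, add_im, sub_re, sub_im] at *
  nlinarith

/-- the square size -/
noncomputable def sz (w : St) : ℝ := normSq w.a + normSq w.m + normSq w.b

/-- weights one: `K13` is the basic norm -/
noncomputable def w1 : Wt := ⟨1, 1, 1, 1, 1, 1, 1, 1, 1, 1⟩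

lemma w1_pos : w1.Pos := by
  constructor <;> norm_num [w1]

lemma K13_w1 (w : St) : K13 w1 w = normSq (w.a - w.m) + normSq (w.b - w.m) + normSq w.m := by
  simp [K13, w1]

lemma K13_le_sz (w : St) : K13 w1 w ≤ 5 * sz w := by
  rw [K13_w1]
  unfold sz
  have h1 := normSq_add_le w.a (-w.m)
  have h2 := normSq_add_le w.b (-w.m)
  rw [← sub_eq_add_neg, normSq_neg] at h1 h2
  have := normSq_nonneg w.a
  have := normSq_nonneg w.b
  have := normSq_nonneg w.m
  linarith

lemma sz_le_K13 (w : St) : sz w ≤ 5 * K13 w1 w := by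
  rw [K13_w1]
  unfold sz
  have h1 := normSq_add_le (w.a - w.m) w.m
  have h2 := normSq_add_le (w.b - w.m) w.m
  rw [sub_add_cancel] at h1 h2
  have := normSq_nonneg (w.a - w.m)
  have := normSq_nonneg (w.b - w.m)
  have := normSq_nonneg w.m
  linarith

lemma sz_mir (w : St) : sz (mir w) = sz w := by
  unfold sz mir
  ring

lemma hx_mul (hq : Good q Q) (w : St) :
    normSq ((1 + q) ^ 2 * w.m - q * (w.a + w.b)) = Q * normSq (1 + q) * hx q Q w := by
  have h1 := hq.n1
  have h2 := hq.Q0.ne'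
  unfold hx
  field_simp

lemma m_bound (hq : Good q Q) (w : St) :
    normSq (1 + q) ^ 2 * normSq w.m ≤
      2 * (Q * normSq (1 + q)) * hx q Q w + 4 * Q ^ 2 * (normSq w.a + normSq w.b) := by
  have e := hx_mul hq w
  have h := normSq_add_le ((1 + q) ^ 2 * w.m - q * (w.a + w.b)) (q * (w.a + w.b))
  have h' := normSq_add_le w.a w.b
  rw [sub_add_cancel, e, normSq_mul, normSq_mul, hq.nq, map_pow] at h
  have hQ : 0 ≤ Q ^ 2 := sq_nonneg _
  have := mul_le_mul_of_nonneg_left h' hQ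
  nlinarith

lemma hx_le (hq : Good q Q) (w : St) :
    hx q Q w ≤ (2 * normSq (1 + q) ^ 2 + 4 * Q ^ 2) / (Q * normSq (1 + q)) * sz w := by
  have hp : 0 < Q * normSq (1 + q) := mul_pos hq.Q0 hq.n1p
  have h := normSq_add_le ((1 + q) ^ 2 * w.m) (-(q * (w.a + w.b)))
  rw [← sub_eq_add_neg, normSq_neg, normSq_mul, normSq_mul, hq.nq, map_pow] at h
  have h' := normSq_add_le w.a w.b
  have hQ : 0 ≤ Q ^ 2 := sq_nonneg _
  have h2 := mul_le_mul_of_nonneg_left h' hQ
  unfold hx
  rw [div_mul_eq_mul_div, div_le_div_iff_of_pos_right hp]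
  have a0 := normSq_nonneg w.a
  have m0 := normSq_nonneg w.m
  have b0 := normSq_nonneg w.b
  have n0 : 0 ≤ normSq (1 + q) ^ 2 := sq_nonneg _
  unfold sz
  have p1 := mul_nonneg n0 a0
  have p2 := mul_nonneg n0 b0
  have p3 := mul_nonneg hQ m0
  nlinarith

lemma H1_upper (hq : Good q Q) (hc : c.Pos) : ∃ E : ℝ, 0 < E ∧ ∀ w : St, H1 q Q c w ≤ E * sz w := by
  have hn3 := hq.n3p
  have hn1 := hq.n1p
  have hQ := hq.Q0
  have hone := hc.one
  have hbe := hc.be
  have hga := hc.ga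
  refine ⟨c.one * ((2 * normSq (1 + q) ^ 2 + 4 * Q ^ 2) / (Q * normSq (1 + q)))
    + c.be * (2 * normSq (1 + q + q ^ 2) + 2 * Q ^ 2) / normSq (1 + q + q ^ 2)
    + c.ga * normSq (1 + q) ^ 2 / normSq (1 + q + q ^ 2), by positivity, ?_⟩
  intro w
  have h1 := mul_le_mul_of_nonneg_left (hx_le hq w) hone.le
  have h2 := normSq_add_le ((1 + q + q ^ 2) * w.a) (-(q * w.b))
  rw [← sub_eq_add_neg, normSq_neg, normSq_mul, normSq_mul, hq.nq] at h2
  have a0 := normSq_nonneg w.a
  have m0 := normSq_nonneg w.m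
  have b0 := normSq_nonneg w.b
  have h3 : normSq ((1 + q + q ^ 2) * w.a - q * w.b)
      ≤ (2 * normSq (1 + q + q ^ 2) + 2 * Q ^ 2) * sz w := by
    unfold sz
    have p1 := mul_nonneg hn3.le m0
    have p2 := mul_nonneg hn3.le b0
    have p3 := mul_nonneg (sq_nonneg Q) m0
    have p4 := mul_nonneg (sq_nonneg Q) a0
    nlinarith
  have h4 : c.be * normSq ((1 + q + q ^ 2) * w.a - q * w.b) / normSq (1 + q + q ^ 2)
      ≤ c.be * (2 * normSq (1 + q + q ^ 2) + 2 * Q ^ 2) / normSq (1 + q + q ^ 2) * sz w := by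
    rw [div_mul_eq_mul_div, div_le_div_iff_of_pos_right hn3, mul_assoc]
    exact mul_le_mul_of_nonneg_left h3 hbe.le
  have h5 : c.ga * normSq (1 + q) ^ 2 * normSq w.b / normSq (1 + q + q ^ 2)
      ≤ c.ga * normSq (1 + q) ^ 2 / normSq (1 + q + q ^ 2) * sz w := by
    rw [div_mul_eq_mul_div, div_le_div_iff_of_pos_right hn3]
    refine mul_le_mul_of_nonneg_left ?_ (by positivity)
    unfold sz
    linarith
  unfold H1
  linarith

lemma ab_bound (hq : Good q Q) {w : St} (D : ℝ) (ha : normSq w.a ≤ D)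
    (hb : normSq w.b ≤ D) (e : ℝ) (he : 0 < e) (h : e * hx q Q w ≤ 1) :
    sz w ≤ 2 * D + (2 * (Q * normSq (1 + q)) / e + 8 * Q ^ 2 * D) / normSq (1 + q) ^ 2 := by
  have hn1 := hq.n1p
  have hQ := hq.Q0
  have hm := m_bound hq w
  have h1 : hx q Q w ≤ 1 / e := by
    rw [le_div_iff₀ he]; linarith
  have h2 : 2 * (Q * normSq (1 + q)) * hx q Q w ≤ 2 * (Q * normSq (1 + q)) / e := by
    have := mul_le_mul_of_nonneg_left h1 (show (0 : ℝ) ≤ 2 * (Q * normSq (1 + q)) by positivity)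
    rwa [mul_one_div] at this
  have h3 : 4 * Q ^ 2 * (normSq w.a + normSq w.b) ≤ 8 * Q ^ 2 * D := by
    have hQ2 := sq_nonneg Q
    nlinarith
  have h4 : normSq w.m ≤ (2 * (Q * normSq (1 + q)) / e + 8 * Q ^ 2 * D) / normSq (1 + q) ^ 2 := by
    rw [le_div_iff₀ (by positivity)]
    linarith
  unfold sz
  linarith

lemma H1_bound (hq : Good q Q) (hc : c.Pos) : ∃ D : ℝ, ∀ w : St, H1 q Q c w ≤ 1 → sz w ≤ D := by
  have hn3 := hq.n3p
  have hn1 := hq.n1p
  have hQ := hq.Q0
  have hone := hc.one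
  have hbe := hc.be
  have hga := hc.ga
  set B := normSq (1 + q + q ^ 2) / (c.ga * normSq (1 + q) ^ 2) with hB
  have hB0 : 0 ≤ B := by positivity
  set A := (2 * (normSq (1 + q + q ^ 2) / c.be) + 2 * Q ^ 2 * B) / normSq (1 + q + q ^ 2) with hA
  have hA0 : 0 ≤ A := by positivity
  refine ⟨_, fun w h => ab_bound hq (A + B) ?_ ?_ c.one hone ?_⟩
  all_goals
    unfold H1 at h
    have t1 : 0 ≤ c.one * hx q Q w := mul_nonneg hone.le (hx_nonneg hq w)
    have t2 : 0 ≤ c.be * normSq ((1 + q + q ^ 2) * w.a - q * w.b) / normSq (1 + q + q ^ 2) := by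
      have := normSq_nonneg ((1 + q + q ^ 2) * w.a - q * w.b)
      positivity
    have t3 : 0 ≤ c.ga * normSq (1 + q) ^ 2 * normSq w.b / normSq (1 + q + q ^ 2) := by
      have := normSq_nonneg w.b
      positivity
    have b1 : normSq w.b ≤ B := by
      have : c.ga * normSq (1 + q) ^ 2 * normSq w.b / normSq (1 + q + q ^ 2) ≤ 1 := by linarith
      rw [div_le_one hn3] at this
      rw [hB, le_div_iff₀ (by positivity)]
      linarith
  · have a1 : normSq ((1 + q + q ^ 2) * w.a - q * w.b) ≤ normSq (1 + q + q ^ 2) / c.be := by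
      have : c.be * normSq ((1 + q + q ^ 2) * w.a - q * w.b) / normSq (1 + q + q ^ 2) ≤ 1 := by
        linarith
      rw [div_le_one hn3] at this
      rw [le_div_iff₀ hbe]
      linarith
    have a2 := normSq_add_le ((1 + q + q ^ 2) * w.a - q * w.b) (q * w.b)
    rw [sub_add_cancel, normSq_mul, normSq_mul q, hq.nq] at a2
    have a3 : normSq w.a ≤ A := by
      rw [hA, le_div_iff₀ hn3]
      have := mul_le_mul_of_nonneg_left b1 (sq_nonneg Q)
      nlinarith
    linarith
  · linarith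
  · linarith

lemma H13_bound (hq : Good q Q) (hc : c.Pos) : ∃ D : ℝ, ∀ w : St, H13 q Q c w ≤ 1 → sz w ≤ D := by
  have hap := hc.ap
  have hbp := hc.bp
  have hgp := hc.gp
  refine ⟨_, fun w h => ab_bound hq (4 / c.bp + 4 / c.gp) ?_ ?_ c.ap hap ?_⟩
  all_goals
    unfold H13 at h
    have t1 : 0 ≤ c.ap * hx q Q w := mul_nonneg hap.le (hx_nonneg hq w)
    have t2 : 0 ≤ c.bp / 4 * normSq (w.a + w.b) := by
      have := normSq_nonneg (w.a + w.b)
      positivity
    have t3 : 0 ≤ c.gp / 4 * normSq (w.a - w.b) := by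
      have := normSq_nonneg (w.a - w.b)
      positivity
    have b1 : normSq (w.a + w.b) ≤ 4 / c.bp := by
      rw [le_div_iff₀ hbp]
      linarith
    have b2 : normSq (w.a - w.b) ≤ 4 / c.gp := by
      rw [le_div_iff₀ hgp]
      linarith
  · have := normSq_add_le (w.a + w.b) (w.a - w.b)
    have e : w.a + w.b + (w.a - w.b) = 2 * w.a := by ring
    rw [e, normSq_mul] at this
    norm_num at this
    have p1 : 0 < 4 / c.bp := by positivity
    have p2 : 0 < 4 / c.gp := by positivity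
    linarith
  · have := normSq_add_le (w.a + w.b) (-(w.a - w.b))
    have e : w.a + w.b + -(w.a - w.b) = 2 * w.b := by ring
    rw [e, normSq_mul, normSq_neg] at this
    norm_num at this
    have p1 : 0 < 4 / c.bp := by positivity
    have p2 : 0 < 4 / c.gp := by positivity
    linarith
  · linarith

lemma Ball_bound (hq : Good q Q) (hc : c.Pos) :
    ∃ D : ℝ, 0 ≤ D ∧ ∀ w : St, Ball q Q c w → sz w ≤ D := by
  obtain ⟨D1, h1⟩ := H1_bound hq hc
  obtain ⟨D2, h2⟩ := H13_bound hq hc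
  refine ⟨max 0 (max D1 D2), le_max_left _ _, fun w h => ?_⟩
  rcases h with h | h | h
  · exact (h1 w h).trans ((le_max_left _ _).trans (le_max_right _ _))
  · rw [← sz_mir]
    exact (h1 _ h).trans ((le_max_left _ _).trans (le_max_right _ _))
  · exact (h2 w h).trans ((le_max_right _ _).trans (le_max_right _ _))

lemma Reach_bound (hq : Good q Q) (hc : c.Pos) :
    ∃ D : ℝ, 0 ≤ D ∧ ∀ w : St, Reach q Q c w → sz w ≤ D := by
  obtain ⟨D, hD, h⟩ := Ball_bound hq hc
  refine ⟨25 * D, by positivity, ?_⟩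
  rintro w ⟨i, j, v, hv, rfl⟩
  have h1 := K13_iter1_le hq w1_pos i ((S3 q)^[j] v)
  have h2 := K13_iter3_le hq w1_pos j v
  have h3 := K13_le_sz v
  have h4 := sz_le_K13 ((S1 q)^[i] ((S3 q)^[j] v))
  have h5 := h v hv
  linarith

/-! ### Scaling -/

/-- scalar multiple -/
def sm (t : ℂ) (w : St) : St := ⟨t * w.a, t * w.m, t * w.b⟩

lemma sz_sm (t : ℂ) (w : St) : sz (sm t w) = normSq t * sz w := by
  simp only [sz, sm, normSq_mul]; ring

lemma step_sm (t : ℂ) (i : Fin 3) (w : St) : step q i (sm t w) = sm t (step q i w) := by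
  unfold Helper8.S4.step
  split_ifs
  · apply St_ext <;> (simp only [S1, sm]; try ring)
  · apply St_ext <;> (simp only [S2, sm]; try ring)
  · apply St_ext <;> (simp only [S3, sm]; try ring)

lemma act_sm (t : ℂ) (l : List (Fin 3)) (w : St) : act q l (sm t w) = sm t (act q l w) := by
  induction l with
  | nil => rfl
  | cons i l ih =>
    change step q i (act q l (sm t w)) = sm t (step q i (act q l w))
    rw [ih, step_sm]

lemma sz_nonneg (w : St) : 0 ≤ sz w := by
  unfold sz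
  have := normSq_nonneg w.a
  have := normSq_nonneg w.m
  have := normSq_nonneg w.b
  linarith

lemma size_sq_le (w : St) : w.size ^ 2 ≤ 3 * sz w := by
  unfold St.size sz
  rw [normSq_eq_norm_sq, normSq_eq_norm_sq, normSq_eq_norm_sq]
  nlinarith [sq_nonneg (‖w.a‖ - ‖w.m‖), sq_nonneg (‖w.a‖ - ‖w.b‖), sq_nonneg (‖w.m‖ - ‖w.b‖)]

lemma sz_le_size_sq (w : St) : sz w ≤ w.size ^ 2 := by
  unfold St.size sz
  rw [normSq_eq_norm_sq, normSq_eq_norm_sq, normSq_eq_norm_sq]
  have h1 := norm_nonneg w.a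
  have h2 := norm_nonneg w.m
  have h3 := norm_nonneg w.b
  nlinarith [mul_nonneg h1 h2, mul_nonneg h1 h3, mul_nonneg h2 h3]

lemma size_nonneg (w : St) : 0 ≤ w.size := by
  unfold St.size
  positivity

end

/-- **The semigroup generated by the three letters is bounded.** -/
theorem transitions : TransitionsTarget := by
  intro q Q c h0 h1 hn he1 he3 hc hl
  have hq : Good q Q := ⟨h0, h1, hn, he1, he3⟩
  obtain ⟨D, hD, hR⟩ := Reach_bound hq hc
  obtain ⟨E, hE, hU⟩ := H1_upper hq hc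
  have key : ∀ (l : List (Fin 3)) (x : St), sz (act q l x) ≤ D * E * sz x := by
    intro l x
    rcases (sz_nonneg x).eq_or_lt with h | h
    · have hx0 : x = sm 0 x := by
        have a0 := normSq_nonneg x.a
        have m0 := normSq_nonneg x.m
        have b0 := normSq_nonneg x.b
        unfold sz at h
        have a1 : x.a = 0 := normSq_eq_zero.1 (by linarith)
        have m1 : x.m = 0 := normSq_eq_zero.1 (by linarith)
        have b1 : x.b = 0 := normSq_eq_zero.1 (by linarith)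
        apply St_ext <;> simp [sm, a1, m1, b1]
      rw [hx0, act_sm, sz_sm, sz_sm]
      simp
    · have hp : 0 < E * sz x := mul_pos hE h
      set t : ℝ := 1 / Real.sqrt (E * sz x) with ht
      have ht2 : normSq (t : ℂ) = 1 / (E * sz x) := by
        rw [normSq_ofReal, ht, div_mul_div_comm, one_mul, Real.mul_self_sqrt hp.le]
      have hb : H1 q Q c (sm t x) ≤ 1 := by
        refine (hU _).trans ?_
        rw [sz_sm, ht2]
        have : E * (1 / (E * sz x) * sz x) = 1 := by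
          field_simp
        rw [this]
      have hr : Reach q Q c (sm t x) := ⟨0, 0, _, Or.inl hb, rfl⟩
      have := hR _ (hr.act hq hc hl l)
      rw [act_sm, sz_sm, ht2, one_div, inv_mul_le_iff₀ hp] at this
      linarith
  refine ⟨Real.sqrt (3 * (D * E)), fun l x => ?_⟩
  have h2 := size_sq_le (act q l x)
  have h3 := key l x
  have h4 := sz_le_size_sq x
  have hDE : 0 ≤ D * E := mul_nonneg hD hE.le
  have h5 : (act q l x).size ^ 2 ≤ (Real.sqrt (3 * (D * E)) * x.size) ^ 2 := by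
    rw [mul_pow, Real.sq_sqrt (by positivity)]
    have := mul_le_mul_of_nonneg_left h4 hDE
    nlinarith
  exact le_of_sq_le_sq h5 (mul_nonneg (Real.sqrt_nonneg _) (size_nonneg x))

end Pool.Agent.Helper29.S4

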